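import Pool.Agent.Helper64.DT.Stmts

/-! DT module CYB: the cycle given by the position lemma leads to a contradiction. -/

set_option autoImplicit false

namespace Pool.Agent.Helper64.DT

open Pool.Agent.Helper64.CT
open Pool.Agent.Helper64.HG (Ovl Model Circ IC HellyCircle ChordModel)

/-- rotation of a cycle -/
theorem cyb_rot {V : Type} {G : SimpleGraph V} {L : List V} (h : IC G L) {y : V} (hy : y ∈ L) :
    ∃ f : ℕ → V, f 0 = y ∧ (∀ i, f i ∈ L) ∧
      (∀ i j, i < j → j < L.length → f i ≠ f j ∧
        (G.Adj (f i) (f j) ↔ (j = i + 1 ∨ (i = 0 ∧ j + 1 = L.length)))) ∧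
      ∀ w ∈ L, ∃ i, i < L.length ∧ f i = w := by
  obtain ⟨k, hk, hky⟩ := List.getElem_of_mem hy
  obtain ⟨h3, hnd, hadj⟩ := h
  have hn : 0 < L.length := by omega
  have hs : ∀ i, k + i < L.length → (k + i) % L.length = k + i := fun i hi =>
    Nat.mod_eq_of_lt hi
  have hb : ∀ i, L.length ≤ k + i → i < L.length → (k + i) % L.length = k + i - L.length := by
    intro i hi hi'
    rw [Nat.mod_eq_sub_mod hi, Nat.mod_eq_of_lt (by omega)]
  refine ⟨fun i => L[(k + i) % L.length]'(Nat.mod_lt _ hn), ?_, fun i => List.getElem_mem _,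
    ?_, ?_⟩
  · simp only [Nat.add_zero, Nat.mod_eq_of_lt hk, hky]
  · intro i j hij hj
    rcases Nat.lt_or_ge (k + i) L.length with c1 | c1
    · rcases Nat.lt_or_ge (k + j) L.length with c2 | c2
      · simp only [hs i c1, hs j c2]
        constructor
        · intro e
          have := (hnd.getElem_inj_iff).1 e
          omega
        · rw [hadj (k + i) (k + j) c1 c2 (by omega)]
          omega
      · simp only [hs i c1, hb j c2 hj]
        constructor
        · intro e
          have := (hnd.getElem_inj_iff).1 e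
          omega
        · rw [SimpleGraph.adj_comm, hadj (k + j - L.length) (k + i) (by omega) c1 (by omega)]
          omega
    · have c2 : L.length ≤ k + j := by omega
      simp only [hb i c1 (by omega), hb j c2 hj]
      constructor
      · intro e
        have := (hnd.getElem_inj_iff).1 e
        omega
      · rw [hadj (k + i - L.length) (k + j - L.length) (by omega) (by omega) (by omega)]
        omega
  · intro w hw
    obtain ⟨j, hj, hjw⟩ := List.getElem_of_mem hw
    rcases Nat.lt_or_ge j k with c | c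
    · refine ⟨j + L.length - k, by omega, ?_⟩
      have e : (k + (j + L.length - k)) % L.length = j := by
        rw [hb _ (by omega) (by omega)]
        omega
      simp only [e, hjw]
    · refine ⟨j - k, by omega, ?_⟩
      have e : (k + (j - k)) % L.length = j := by
        rw [hs _ (by omega)]
        omega
      simp only [e, hjw]

/-- rotation and reflection of a cycle -/
theorem cyb_rot2 {V : Type} {G : SimpleGraph V} {L : List V} (h : IC G L) {y y' : V}
    (hy : y ∈ L) (hy' : y' ∈ L) (ha : G.Adj y y') :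
    ∃ f : ℕ → V, f 0 = y ∧ f 1 = y' ∧ (∀ i, f i ∈ L) ∧
      (∀ i j, i < j → j < L.length → f i ≠ f j ∧
        (G.Adj (f i) (f j) ↔ (j = i + 1 ∨ (i = 0 ∧ j + 1 = L.length)))) := by
  obtain ⟨f, f0, fL, ff, fs⟩ := cyb_rot h hy
  have h3 := h.1
  obtain ⟨j, hj, hjy⟩ := fs y' hy'
  have hj0 : 0 < j := by
    rcases Nat.eq_zero_or_pos j with e | e
    · exfalso
      rw [e, f0] at hjy
      rw [hjy] at ha
      exact G.loopless.irrefl _ ha
    · exact e
  rw [← f0, ← hjy] at ha
  rcases ((ff 0 j hj0 hj).2).1 ha with e | ⟨_, e⟩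
  · refine ⟨f, f0, ?_, fL, ff⟩
    rw [← hjy, e]
  · refine ⟨fun i => if i = 0 then f 0 else f (L.length - i), ?_, ?_, ?_, ?_⟩
    · exact (if_pos rfl).trans f0
    · refine (if_neg (by norm_num : ¬ (1 : ℕ) = 0)).trans ?_
      rw [← hjy]
      congr 1
      omega
    · intro i
      show (if i = 0 then f 0 else f (L.length - i)) ∈ L
      by_cases c : i = 0
      · rw [if_pos c]
        exact fL 0
      · rw [if_neg c]
        exact fL _
    · intro i j hij hj
      show (if i = 0 then f 0 else f (L.length - i)) ≠ (if j = 0 then f 0 else f (L.length - j)) ∧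
        (G.Adj (if i = 0 then f 0 else f (L.length - i))
          (if j = 0 then f 0 else f (L.length - j)) ↔ _)
      rw [if_neg (by omega : ¬ j = 0)]
      by_cases c : i = 0
      · rw [if_pos c]
        obtain ⟨a1, a2⟩ := ff 0 (L.length - j) (by omega) (by omega)
        refine ⟨a1, a2.trans ?_⟩
        omega
      · rw [if_neg c]
        obtain ⟨a1, a2⟩ := ff (L.length - j) (L.length - i) (by omega) (by omega)
        refine ⟨fun e => a1 e.symm, ?_⟩
        rw [SimpleGraph.adj_comm, a2]
        omega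

theorem cyb_bool1 : ∀ A B C D E F : Bool, xor (xor A B) (xor D E) = true →
    xor (xor A C) (xor D F) = true → xor (xor B C) (xor E F) = true → False := by decide

theorem cyb_bool5 : ∀ A B C D E F : Bool, xor (xor A B) (xor C D) = true →
    xor (xor E B) (xor F D) = true → xor (xor A C) (xor E F) = false := by decide

theorem cyb_bool6 : ∀ A C E F I : Bool, xor (xor A C) (xor E F) = false →
    xor (xor A E) (xor C I) = false → I = F := by decide

theorem cyb_bool2 (A B C D E F G H I : Bool) (h1 : xor (xor A B) (xor C D) = true)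
    (h2 : xor (xor E B) (xor F D) = true) (h3 : xor (xor A G) (xor E H) = true)
    (h4 : xor (xor C G) (xor I H) = true) (h5 : I ≠ F) : False :=
  h5 (cyb_bool6 A C E F I (cyb_bool5 _ _ _ _ _ _ h1 h2) (cyb_bool5 _ _ _ _ _ _ h3 h4))

theorem cyb_bool3 : ∀ A B C D : Bool, xor (xor A B) (xor C D) = true → C ≠ A → D ≠ B →
    False := by decide

theorem cyb_bool4 : ∀ A B C D E F G H : Bool, xor (xor A B) (xor C D) = true →
    xor (xor A E) (xor C F) = true → D ≠ G → F ≠ H → (B = G ∧ E = H) ∨ (B = !G ∧ E = !H) := by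
  decide

theorem st_CYB (_ : ST_GB1) (GB2 : ST_GB2) : ST_CYB := by
  intro V G b T z l r w L hDF hNB hzT hM hR ⟨p, hpT, hzp⟩ hIC h4 hLT side ht
  have hne : ∀ y ∈ T, y ≠ z := fun y hy e => hzT (e ▸ hy)
  have hneL : ∀ y ∈ L, y ≠ z := fun y hy => hne y (hLT y hy)
  -- three pairwise nonadjacent neighbours of a vertex
  have key : ∀ n y y' : V, G.Adj n z → G.Adj n y → G.Adj n y' → y ∈ L → y' ∈ L → y ≠ y' →
      ¬ G.Adj y y' → ¬ G.Adj z y → ¬ G.Adj z y' → b z y = b z y' → False := by
    intro n y y' hnz hny hny' hy hy' hyy' hn1 hzy hzy' hs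
    have e1 := side y hy y' hy' ⟨hyy'.symm, hn1⟩
    have e2 := side y' hy' y hy ⟨hyy', fun h => hn1 h.symm⟩
    have a1 := hNB.n3 n z y hnz hny (hneL y hy).symm hzy
    have a2 := hNB.n3 n z y' hnz hny' (hneL y' hy').symm hzy'
    have a3 := hNB.n3 n y y' hny hny' hyy' hn1
    rw [← e1, ← e2] at a3
    rw [← hs] at a2
    exact cyb_bool1 _ _ _ _ _ _ a1 a2 a3
  -- two neighbours of `z` in `L` are adjacent
  have two : ∀ y ∈ L, ∀ y' ∈ L, G.Adj z y → G.Adj z y' → y ≠ y' → G.Adj y y' := by
    intro y hy y' hy' h1 h2 hyy'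
    by_contra hn1
    have e1 := side y hy y' hy' ⟨hyy'.symm, hn1⟩
    have e2 := side y' hy' y hy ⟨hyy', fun h => hn1 h.symm⟩
    have a1 := hNB.n3 z y y' h1 h2 hyy' hn1
    rw [← e1, ← e2] at a1
    exact cyb_bool3 _ _ _ _ a1 (hNB.n1 z y h1) (hNB.n1 z y' h2)
  by_cases hex : ∃ y1 ∈ L, G.Adj z y1
  · obtain ⟨y1, hy1, hzy1⟩ := hex
    by_cases hex2 : ∃ y2 ∈ L, G.Adj z y2 ∧ y2 ≠ y1
    · obtain ⟨y2, hy2, hzy2, hne2⟩ := hex2
      have h12 : G.Adj y1 y2 := two y1 hy1 y2 hy2 hzy1 hzy2 hne2.symm
      obtain ⟨f, f0, f1, fL, ff⟩ := cyb_rot2 hIC hy1 hy2 h12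
      have hno : ∀ j, 2 ≤ j → j < L.length → ¬ G.Adj z (f j) := by
        intro j hj hj' hzj
        have a1 := two y1 hy1 (f j) (fL j) hzy1 hzj (by
          rw [← f0]
          exact (ff 0 j (by omega) hj').1)
        have a2 := two y2 hy2 (f j) (fL j) hzy2 hzj (by
          rw [← f1]
          exact (ff 1 j (by omega) hj').1)
        rw [← f0] at a1
        rw [← f1] at a2
        have b1 := ((ff 0 j (by omega) hj').2).1 a1
        have b2 := ((ff 1 j (by omega) hj').2).1 a2
        omega
      have hfar : ∀ j, 2 ≤ j → j < L.length → f j ∈ Far G z := fun j hj hj' =>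
        ⟨hneL _ (fL j), hno j hj hj'⟩
      have hconst : ∀ i, i + 2 < L.length → b z (f 2) = b z (f (i + 2)) := by
        intro i
        induction i with
        | zero => intro _; rfl
        | succ i ih =>
          intro hi
          rw [ih (by omega)]
          exact hNB.n2 z (f (i + 2)) (f (i + 1 + 2)) (hfar _ (by omega) (by omega))
            (hfar _ (by omega) hi) (((ff (i + 2) (i + 1 + 2) (by omega) hi).2).2 (Or.inl (by omega)))
      have e3 : b z (f 2) = b z (f (L.length - 1)) := by
        have := hconst (L.length - 3) (by omega)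
        rwa [show L.length - 3 + 2 = L.length - 1 by omega] at this
      have g02 := ff 0 2 (by omega) (by omega)
      have g12 := ff 1 2 (by omega) (by omega)
      have g0k := ff 0 (L.length - 1) (by omega) (by omega)
      have g1k := ff 1 (L.length - 1) (by omega) (by omega)
      rw [f0] at g02 g0k
      rw [f1] at g12 g1k
      have a02 : ¬ G.Adj y1 (f 2) := fun e => by
        have := g02.2.1 e
        omega
      have a12 : G.Adj y2 (f 2) := g12.2.2 (Or.inl rfl)
      have a0k : G.Adj y1 (f (L.length - 1)) := g0k.2.2 (Or.inr ⟨rfl, by omega⟩)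
      have a1k : ¬ G.Adj y2 (f (L.length - 1)) := fun e => by
        have := g1k.2.1 e
        omega
      have s1 := side y1 hy1 (f 2) (fL 2) ⟨g02.1.symm, a02⟩
      have s2 := side (f 2) (fL 2) y1 hy1 ⟨g02.1, fun e => a02 e.symm⟩
      have s3 := side y2 hy2 (f (L.length - 1)) (fL _) ⟨g1k.1.symm, a1k⟩
      have s4 := side (f (L.length - 1)) (fL _) y2 hy2 ⟨g1k.1, fun e => a1k e.symm⟩
      have t1 := hNB.n3 y2 z (f 2) hzy2.symm a12 (hneL _ (fL 2)).symm
        (hno 2 le_rfl (by omega))
      have t2 := hNB.n3 y2 y1 (f 2) h12.symm a12 g02.1 a02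
      have t3 := hNB.n3 y1 z (f (L.length - 1)) hzy1.symm a0k (hneL _ (fL _)).symm
        (hno _ (by omega) (by omega))
      have t4 := hNB.n3 y1 y2 (f (L.length - 1)) h12 a0k g1k.1 a1k
      rw [← s1, ← s2] at t2
      rw [← e3] at t3
      rw [← s3, ← s4] at t4
      exact cyb_bool2 _ _ _ _ _ _ _ _ _ t1 t2 t3 t4 (hNB.n1 y1 y2 h12)
    · have hno : ∀ y ∈ L, y ≠ y1 → ¬ G.Adj z y := fun y hy hyne h => hex2 ⟨y, hy, h, hyne⟩
      obtain ⟨f, f0, fL, ff, _⟩ := cyb_rot hIC hy1
      have hno' : ∀ j, 1 ≤ j → j < L.length → ¬ G.Adj z (f j) := by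
        intro j hj hj'
        refine hno _ (fL j) ?_
        rw [← f0]
        exact (ff 0 j (by omega) hj').1.symm
      have hfar : ∀ j, 1 ≤ j → j < L.length → f j ∈ Far G z := fun j hj hj' =>
        ⟨hneL _ (fL j), hno' j hj hj'⟩
      have hconst : ∀ i, i + 1 < L.length → b z (f 1) = b z (f (i + 1)) := by
        intro i
        induction i with
        | zero => intro _; rfl
        | succ i ih =>
          intro hi
          rw [ih (by omega)]
          exact hNB.n2 z (f (i + 1)) (f (i + 1 + 1)) (hfar _ (by omega) (by omega))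
            (hfar _ (by omega) hi) (((ff (i + 1) (i + 1 + 1) (by omega) hi).2).2 (Or.inl rfl))
      have e3 : b z (f 1) = b z (f (L.length - 1)) := by
        have := hconst (L.length - 2) (by omega)
        rwa [show L.length - 2 + 1 = L.length - 1 by omega] at this
      have g01 := ff 0 1 (by omega) (by omega)
      have g0k := ff 0 (L.length - 1) (by omega) (by omega)
      have g1k := ff 1 (L.length - 1) (by omega) (by omega)
      rw [f0] at g01 g0k
      exact key y1 (f 1) (f (L.length - 1)) hzy1.symm (g01.2.2 (Or.inl rfl))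
        (g0k.2.2 (Or.inr ⟨rfl, by omega⟩)) (fL _) (fL _) g1k.1
        (fun e => by
          have := g1k.2.1 e
          omega) (hno' _ le_rfl (by omega)) (hno' _ (by omega) (by omega)) e3
  · have hno : ∀ y ∈ L, ¬ G.Adj z y := fun y hy h => hex ⟨y, hy, h⟩
    have hpL : ∀ y ∈ L, p ≠ y := fun y hy e => hno y hy (e ▸ hzp)
    have hlne : ∀ y ∈ L, l p ≠ l y ∧ l p ≠ r y := fun y hy =>
      ⟨fun e => hpL y hy (hM.injl p hpT y (hLT y hy) e), hM.ne p hpT y (hLT y hy)⟩
    have hrne : ∀ y ∈ L, r p ≠ l y ∧ r p ≠ r y := fun y hy =>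
      ⟨fun e => hM.ne y (hLT y hy) p hpT e.symm, fun e => hpL y hy (hM.injr p hpT y (hLT y hy) e)⟩
    obtain ⟨y, hy, h1⟩ := ht (l p) hlne
    obtain ⟨y', hy', h2⟩ := ht (r p) hrne
    -- the value `b u p` and the tail of `p`
    have hbp : ∀ u ∈ L, (b u p = w u ↔ InP l r u (tl l r w p)) := by
      intro u hu
      rw [hR u (hLT u hu) p hpT (hpL u hu)]
      unfold bm
      by_cases c : InP l r u (tl l r w p)
      · rw [if_pos c]
        exact ⟨fun _ => c, fun _ => rfl⟩
      · rw [if_neg c]
        refine ⟨fun e => ?_, fun e => absurd e c⟩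
        cases hw : w u <;> rw [hw] at e <;> exact absurd e (by decide)
    have hins : ∀ u ∈ L, ¬ G.Adj u p → (b u z = w u ↔ Ins l r u p) := by
      intro u hu hup
      have b1 : p ∈ Far G u := ⟨hpL u hu, hup⟩
      have b2 : z ∈ Far G u := ⟨(hneL u hu).symm, fun h => hno u hu h.symm⟩
      have b3 : b u z = b u p := hNB.n2 u z p b2 b1 hzp
      rw [b3, hbp u hu]
      exact (GB2 V G T l r w hM).1 u (hLT u hu) p hpT b1
    have hpp := hM.lt p hpT
    have hadj1 : G.Adj y p := by
      by_contra hyp
      have b1 := hins y hy hyp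
      apply h1
      rw [b1]
      have b2 := hM.adj y (hLT y hy) p hpT
      have b3 : ¬ Ovl l r y p := fun h => hyp (b2.2 h)
      constructor
      · rintro ⟨c1, c2⟩
        refine ⟨c1, ?_⟩
        rcases lt_trichotomy (r p) (r y) with h | h | h
        · exact h
        · exact absurd h (hrne y hy).2
        · exact absurd (Or.inl ⟨c1, c2, h⟩) b3
      · rintro ⟨c1, c2⟩
        exact ⟨c1, hpp.trans c2⟩
    have hadj2 : G.Adj y' p := by
      by_contra hyp
      have b1 := hins y' hy' hyp
      apply h2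
      rw [b1]
      have b2 := hM.adj y' (hLT y' hy') p hpT
      have b3 : ¬ Ovl l r y' p := fun h => hyp (b2.2 h)
      constructor
      · rintro ⟨c1, c2⟩
        refine ⟨?_, c2⟩
        rcases lt_trichotomy (l y') (l p) with h | h | h
        · exact h
        · exact absurd h.symm (hlne y' hy').1
        · exact absurd (Or.inr ⟨h, c1, c2⟩) b3
      · rintro ⟨c1, c2⟩
        exact ⟨c1.trans hpp, c2⟩
    -- exactly one end of `p` is inside a chord crossed by `p`
    have hone : ∀ u ∈ L, G.Adj u p → (InP l r u (l p) ↔ ¬ InP l r u (r p)) := by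
      intro u hu hup
      unfold InP
      rcases (hM.adj u (hLT u hu) p hpT).1 hup with ⟨c1, c2, c3⟩ | ⟨c1, c2, c3⟩
      · exact ⟨fun _ e => absurd e.2 (not_lt.2 c3.le), fun _ => ⟨c1, c2⟩⟩
      · exact ⟨fun e => absurd e.1 (not_lt.2 c1.le), fun e => absurd ⟨c2, c3⟩ e⟩
    have hyy' : y ≠ y' := by
      rintro rfl
      have b2 := hone y hy hadj1
      tauto
    have hzc : ∀ u ∈ L, b z u = b z y := by
      obtain ⟨f, f0, fL, ff, fs⟩ := cyb_rot hIC hy
      have hconst : ∀ i, i < L.length → b z (f 0) = b z (f i) := by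
        intro i
        induction i with
        | zero => intro _; rfl
        | succ i ih =>
          intro hi
          rw [ih (by omega)]
          exact hNB.n2 z (f i) (f (i + 1)) ⟨hneL _ (fL _), hno _ (fL _)⟩
            ⟨hneL _ (fL _), hno _ (fL _)⟩ (((ff i (i + 1) (by omega) hi).2).2 (Or.inl rfl))
      intro u hu
      obtain ⟨i, hi, hiu⟩ := fs u hu
      have := hconst i hi
      rw [f0, hiu] at this
      exact this.symm
    by_cases hyadj : G.Adj y y'
    · have a1 := hNB.n3 p z y hzp.symm hadj1.symm (hneL y hy).symm (hno y hy)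
      have a2 := hNB.n3 p z y' hzp.symm hadj2.symm (hneL y' hy').symm (hno y' hy')
      rw [hzc y' hy'] at a2
      have b1 := hbp y hy
      have b2 := hbp y' hy'
      have o1 := hone y hy hadj1
      have o2 := hone y' hy' hadj2
      have htl : tl l r w p = l p ∨ tl l r w p = r p := by
        unfold tl
        by_cases c : w p = true
        · exact Or.inl (if_pos c)
        · exact Or.inr (if_neg c)
      have hnot : ∀ B G W : Bool, B = !G → (B = W ↔ ¬ G = W) := by decide
      rcases cyb_bool4 _ _ _ _ _ _ _ _ a1 a2 (hNB.n1 p y hadj1.symm) (hNB.n1 p y' hadj2.symm)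
        with ⟨c1, c2⟩ | ⟨c1, c2⟩
      · rw [← c1] at b1
        rw [← c2] at b2
        rcases htl with e | e
        · rw [e] at b1
          exact h1 b1.symm
        · rw [e] at b2
          exact h2 b2.symm
      · have d1 := hnot _ _ (w y) c1
        have d2 := hnot _ _ (w y') c2
        rcases htl with e | e
        · rw [e] at b2
          apply h2
          rw [d2, b2, o2, not_not]
        · rw [e] at b1
          apply h1
          rw [d1, b1, o1]
    · exact key p y y' hzp.symm hadj1.symm hadj2.symm hy hy' hyy' hyadj (hno y hy) (hno y' hy')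
        (hzc y' hy').symm

end Pool.Agent.Helper64.DT
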